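import Mathlib
import Pool.Agent.Y272.LC.Stm
import Pool.Agent.W746.LD.Koebe

set_option autoImplicit false

/-! Landing of preperiodic rays in the connected case. -/

open Complex Filter Topology Metric Set MeasureTheory

namespace Pool.Agent.Y576.LC

open Pool.Agent.H712R2 Pool.Agent.H713R2 Pool.Agent.H713R2.AR Pool.Agent.W677.Mar Pool.Agent.Y272.TY
  Pool.Agent.Y272.LC Pool.Agent.W746.LD

theorem zt_re (s t : ℝ) : (zt s t).re = s := by
  simp [zt]

theorem zt_mul (a : ℕ) (s t : ℝ) : (a : ℂ) * zt s t = zt (a * s) (a * t) := by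
  simp only [zt]
  push_cast
  ring

/-- iteration of the functional equation -/
theorem iter_map {d : ℕ} {Φ : ℂ → ℂ → ℂ} (hd : 2 ≤ d) (hΦ : IsBott d Φ) {c0 : ℂ}
    (h0 : green d c0 0 = 0) (n : ℕ) (s t : ℝ) (hs : 0 < s) :
    (fc d c0)^[n] (Φ c0 (zt s t)) = Φ c0 (zt ((d : ℝ) ^ n * s) ((d : ℝ) ^ n * t)) := by
  induction n with
  | zero => simp
  | succ n ih =>
    have hdR : (0 : ℝ) < (d : ℝ) := by exact_mod_cast (by omega : 0 < d)
    rw [Function.iterate_succ_apply', ih, hΦ.map, zt_mul]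
    · congr 2 <;> ring
    · rw [h0, zt_re]; positivity

/-- integer translations -/
theorem per_int {d : ℕ} {Φ : ℂ → ℂ → ℂ} (hΦ : IsBott d Φ) {c0 : ℂ}
    (h0 : green d c0 0 = 0) (m : ℤ) (s t : ℝ) (hs : 0 < s) :
    Φ c0 (zt s (t + m)) = Φ c0 (zt s t) := by
  have key : ∀ (n : ℕ) (t : ℝ), Φ c0 (zt s (t + n)) = Φ c0 (zt s t) := by
    intro n
    induction n with
    | zero => intro t; simp
    | succ n ih =>
      intro t
      rw [← ih t]
      have h1 : zt s (t + ((n + 1 : ℕ) : ℝ)) = zt s (t + n) + ((2 * Real.pi : ℝ) : ℂ) * I := by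
        simp only [zt]
        push_cast
        ring
      rw [h1, hΦ.per]
      rw [h0, zt_re]; exact hs
  obtain ⟨n, rfl | rfl⟩ := m.eq_nat_or_neg
  · have := key n t
    simpa using this
  · have := key n (t - n)
    rw [sub_add_cancel] at this
    rw [this]
    congr 2
    push_cast
    ring

/-- univalence on balls -/
theorem univ_ball {d : ℕ} {Φ : ℂ → ℂ → ℂ} (hΦ : IsBott d Φ) {c0 : ℂ}
    (h0 : green d c0 0 = 0) {ζ : ℂ} {r : ℝ} (hr : r ≤ ζ.re) (hr3 : r ≤ 3) :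
    Univ (Φ c0) ζ r := by
  have hsub : ball ζ r ⊆ {ζ | green d c0 0 < ζ.re} := by
    intro w hw
    rw [mem_ball, dist_eq_norm] at hw
    have h1 : |(w - ζ).re| ≤ ‖w - ζ‖ := Complex.abs_re_le_norm _
    rw [Complex.sub_re] at h1
    have h2 := (abs_le.1 h1).1
    rw [mem_setOf_eq, h0]
    linarith
  refine ⟨(hΦ.hol c0).mono hsub, ?_⟩
  intro x hx y hy hxy
  obtain ⟨k, hk⟩ := hΦ.inj c0 x y (hsub hx) (hsub hy) hxy
  rw [mem_ball, dist_eq_norm] at hx hy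
  have h1 : ‖x - y‖ < 6 := by
    calc ‖x - y‖ = ‖(x - ζ) - (y - ζ)‖ := by congr 1; ring
      _ ≤ ‖x - ζ‖ + ‖y - ζ‖ := norm_sub_le _ _
      _ < 6 := by linarith
  have h2 : x - y = (k : ℂ) * (((2 * Real.pi : ℝ) : ℂ) * I) := by rw [hk]; ring
  rw [h2, norm_mul, norm_mul, Complex.norm_I, mul_one, Complex.norm_real, Complex.norm_intCast,
    Real.norm_of_nonneg (by positivity)] at h1
  have hk0 : k = 0 := by
    by_contra hne
    have h3 : (1 : ℝ) ≤ |(k : ℝ)| := by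
      exact_mod_cast Int.one_le_abs hne
    have h4 := Real.pi_gt_three
    nlinarith
  rw [hk, hk0]
  simp

/-- points of small level are close to the filled Julia set -/
theorem near_K {d : ℕ} (hd : 2 ≤ d) {c0 : ℂ} (h0 : green d c0 0 = 0) {ε : ℝ} (hε : 0 < ε) :
    ∃ s0 : ℝ, 0 < s0 ∧ s0 ≤ 1 ∧ ∀ z, green d c0 z ≤ s0 → ∃ a, green d c0 a = 0 ∧ ‖z - a‖ ≤ ε := by
  set K : Set ℂ := {a | green d c0 a = 0} with hK
  have hKne : K.Nonempty := ⟨0, h0⟩
  set S : Set ℂ := GLev d c0 1 ∩ {z | ε ≤ infDist z K} with hS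
  have hSc : IsCompact S :=
    (isCompact_GLev hd c0 1).inter_right (isClosed_le continuous_const (continuous_infDist_pt K))
  have hfin : ∀ s0 : ℝ, 0 < s0 → s0 ≤ 1 → (∀ z ∈ S, s0 < green d c0 z) →
      ∀ z, green d c0 z ≤ s0 → ∃ a, green d c0 a = 0 ∧ ‖z - a‖ ≤ ε := by
    intro s0 _ hs1 hS' z hz
    have h1 : infDist z K < ε := by
      by_contra hcon
      push Not at hcon
      have := hS' z ⟨hz.trans hs1, hcon⟩
      linarith
    obtain ⟨a, ha, ha2⟩ := (infDist_lt_iff hKne).1 h1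
    rw [dist_eq_norm] at ha2
    exact ⟨a, ha, ha2.le⟩
  rcases S.eq_empty_or_nonempty with hem | hne
  · refine ⟨1, one_pos, le_rfl, hfin 1 one_pos le_rfl ?_⟩
    rw [hem]
    intro z hz
    exact absurd hz (Set.notMem_empty z)
  · obtain ⟨z0, hz0, hmin⟩ := hSc.exists_isMinOn hne (continuous_green hd c0).continuousOn
    have hm : 0 < green d c0 z0 := by
      rcases (green_nonneg hd c0 z0).lt_or_eq with h | h
      · exact h
      · exfalso
        have h1 : infDist z0 K = 0 := infDist_zero_of_mem h.symm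
        have h2 : ε ≤ infDist z0 K := hz0.2
        linarith
    refine ⟨min (green d c0 z0 / 2) 1, by positivity, min_le_right _ _,
      hfin _ (by positivity) (min_le_right _ _) ?_⟩
    intro z hz
    have h1 := hmin hz
    have h2 : green d c0 z0 ≤ green d c0 z := h1
    have h3 := min_le_left (green d c0 z0 / 2) (1 : ℝ)
    linarith

/-- the derivative along the rays -/
theorem deriv_small {d : ℕ} (hd : 2 ≤ d) {Φ : ℂ → ℂ → ℂ} (hΦ : IsBott d Φ) {c0 : ℂ}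
    (h0 : green d c0 0 = 0) {ε : ℝ} (hε : 0 < ε) :
    ∃ s0 : ℝ, 0 < s0 ∧ s0 ≤ 1 ∧ ∀ ζ : ℂ, 0 < ζ.re → ζ.re ≤ s0 →
      ‖deriv (Φ c0) ζ‖ ≤ ε / ζ.re := by
  obtain ⟨C0, k0, KK⟩ := exists_KC
  have hk0 := KK.pos
  obtain ⟨s0, hs0, hs1, hs⟩ := near_K hd h0 (mul_pos hε hk0)
  refine ⟨s0, hs0, hs1, ?_⟩
  intro ζ hζ hζs
  have hg : green d c0 (Φ c0 ζ) = ζ.re := hΦ.grn c0 ζ (by rw [h0]; exact hζ)
  obtain ⟨a, ha, ha2⟩ := hs (Φ c0 ζ) (by rw [hg]; exact hζs)
  have hu : Univ (Φ c0) ζ ζ.re := univ_ball hΦ h0 le_rfl (by linarith)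
  have h1 := KK.komit (Φ c0) ζ ζ.re hζ hu a (by
    intro w hw hwa
    have h2 : 0 < w.re := by
      rw [mem_ball, dist_eq_norm] at hw
      have h3 : |(w - ζ).re| ≤ ‖w - ζ‖ := Complex.abs_re_le_norm _
      rw [Complex.sub_re] at h3
      have h4 := (abs_le.1 h3).1
      linarith
    have h5 := hΦ.grn c0 w (by rw [h0]; exact h2)
    rw [hwa, ha] at h5
    linarith)
  rw [le_div_iff₀ hζ]
  have h2 : k0 * (‖deriv (Φ c0) ζ‖ * ζ.re) ≤ k0 * ε := by
    calc k0 * (‖deriv (Φ c0) ζ‖ * ζ.re) = k0 * ζ.re * ‖deriv (Φ c0) ζ‖ := by ring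
      _ ≤ ‖Φ c0 ζ - a‖ := h1
      _ ≤ ε * k0 := ha2
      _ = k0 * ε := by ring
  exact le_of_mul_le_mul_left h2 hk0

/-- oscillation of a ray between the levels `v` and `D v` -/
theorem ray_osc {d : ℕ} (hd : 2 ≤ d) {Φ : ℂ → ℂ → ℂ} (hΦ : IsBott d Φ) {c0 : ℂ}
    (h0 : green d c0 0 = 0) {D : ℝ} (hD : 1 ≤ D) {η : ℝ} (hη : 0 < η) :
    ∃ v0 : ℝ, 0 < v0 ∧ ∀ v t : ℝ, 0 < v → v ≤ v0 →
      ‖Φ c0 (zt (D * v) t) - Φ c0 (zt v t)‖ ≤ η := by
  obtain ⟨s0, hs0, hs1, hs⟩ := deriv_small hd hΦ h0 (ε := η / D) (by positivity)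
  refine ⟨s0 / D, by positivity, ?_⟩
  intro v t hv hv0
  have hDv : D * v ≤ s0 := by
    rw [le_div_iff₀ (by linarith)] at hv0
    linarith
  have hvD : v ≤ D * v := by nlinarith
  have h1 : ∀ x ∈ Icc v (D * v), HasDerivWithinAt (fun x : ℝ => Φ c0 (zt x t))
      (deriv (Φ c0) (zt x t)) (Icc v (D * v)) x := by
    intro x hx
    have hx0 : 0 < x := hv.trans_le hx.1
    have h2 : DifferentiableAt ℂ (Φ c0) (zt x t) := by
      have hopen : IsOpen {ζ : ℂ | green d c0 0 < ζ.re} :=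
        isOpen_lt continuous_const Complex.continuous_re
      exact ((hΦ.hol c0) _ (by rw [mem_setOf_eq, h0, zt_re]; exact hx0)).differentiableAt
        (hopen.mem_nhds (by rw [mem_setOf_eq, h0, zt_re]; exact hx0))
    have h3 : HasDerivAt (fun x : ℝ => zt x t) 1 x := by
      unfold zt
      have h4 : HasDerivAt (fun x : ℝ => (x : ℂ)) 1 x := (hasDerivAt_id x).ofReal_comp
      exact h4.add_const (((2 * Real.pi * t : ℝ) : ℂ) * I)
    have h5 := h2.hasDerivAt.comp x h3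
    rw [mul_one] at h5
    exact h5.hasDerivWithinAt
  have h2 : ∀ x ∈ Icc v (D * v), ‖deriv (Φ c0) (zt x t)‖ ≤ η / D / v := by
    intro x hx
    have hx0 : 0 < x := hv.trans_le hx.1
    have h3 := hs (zt x t) (by rw [zt_re]; exact hx0) (by rw [zt_re]; exact hx.2.trans hDv)
    rw [zt_re] at h3
    refine h3.trans ?_
    exact div_le_div_of_nonneg_left (by positivity) hv hx.1
  have h3 := (convex_Icc v (D * v)).norm_image_sub_le_of_norm_hasDerivWithin_le h1 h2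
    (left_mem_Icc.2 hvD) (right_mem_Icc.2 hvD)
  refine h3.trans ?_
  rw [Real.norm_of_nonneg (by linarith)]
  have h4 : η / D / v * (D * v - v) = η * ((D - 1) / D) := by
    field_simp
  rw [h4]
  have h5 : (D - 1) / D ≤ 1 := by
    rw [div_le_one (by linarith)]; linarith
  nlinarith

/-- the iterates as polynomials -/
noncomputable def pol (d : ℕ) (c : ℂ) : ℕ → Polynomial ℂ
  | 0 => Polynomial.X
  | n + 1 => pol d c n ^ d + Polynomial.C c

theorem pol_eval (d : ℕ) (c : ℂ) (n : ℕ) (z : ℂ) : (pol d c n).eval z = (fc d c)^[n] z := by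
  induction n with
  | zero => simp [pol]
  | succ n ih =>
    rw [Function.iterate_succ_apply', ← ih]
    simp [pol, fc]

theorem pol_natDegree {d : ℕ} (hd : 2 ≤ d) (c : ℂ) (n : ℕ) : (pol d c n).natDegree = d ^ n := by
  induction n with
  | zero => simp [pol]
  | succ n ih =>
    rw [pol, Polynomial.natDegree_add_C, Polynomial.natDegree_pow, ih, pow_succ, mul_comm]

theorem zeros_finite {d : ℕ} (hd : 2 ≤ d) (c : ℂ) (k N : ℕ) (hN : 1 ≤ N) :
    {z : ℂ | (fc d c)^[k + N] z - (fc d c)^[k] z = 0}.Finite := by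
  have hne : pol d c (k + N) - pol d c k ≠ 0 := by
    intro h
    have h1 : pol d c (k + N) = pol d c k := sub_eq_zero.1 h
    have h2 := congrArg Polynomial.natDegree h1
    rw [pol_natDegree hd, pol_natDegree hd] at h2
    have h3 : d ^ k < d ^ (k + N) := Nat.pow_lt_pow_right (by omega) (by omega)
    omega
  refine (Polynomial.finite_setOf_isRoot hne).subset ?_
  intro z hz
  rw [mem_setOf_eq] at hz ⊢
  rw [Polynomial.IsRoot, Polynomial.eval_sub, pol_eval, pol_eval, hz]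

theorem cont_iter (d : ℕ) (c : ℂ) (n : ℕ) : Continuous ((fc d c)^[n]) := by
  have : Continuous (fc d c) := by unfold fc; fun_prop
  exact this.iterate n

/-- LND -/
theorem lnd : St_Lnd := by
  intro d Φ hd hΦ c0 h0 t k N hN ⟨m, hm⟩
  have hdR : (1 : ℝ) < (d : ℝ) := by exact_mod_cast (by omega : 1 < d)
  set γ : ℝ → ℂ := fun s => Φ c0 (zt s t) with hγ
  set F : ℂ → ℂ := fun z => (fc d c0)^[k + N] z - (fc d c0)^[k] z with hF
  have hFc : Continuous F := (cont_iter d c0 _).sub (cont_iter d c0 _)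
  have hZ : {z : ℂ | F z = 0}.Finite := zeros_finite hd c0 k N hN
  -- continuity of the ray
  have hγc : ContinuousOn γ (Ioi 0) := by
    have h1 : ContinuousOn (Φ c0) {ζ | green d c0 0 < ζ.re} := (hΦ.hol c0).continuousOn
    refine h1.comp ?_ ?_
    · unfold zt
      fun_prop
    · intro s hs
      rw [mem_setOf_eq, h0, zt_re]; exact hs
  -- F along the ray
  have hFγ : ∀ η : ℝ, 0 < η → ∃ v1 : ℝ, 0 < v1 ∧ ∀ s : ℝ, 0 < s → s < v1 → ‖F (γ s)‖ ≤ η := by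
    intro η hη
    obtain ⟨v0, hv0, hv⟩ := ray_osc hd hΦ h0 (D := (d : ℝ) ^ N) (one_le_pow₀ hdR.le) hη
    have hu : (0 : ℝ) < (d : ℝ) ^ k := by positivity
    refine ⟨v0 / (d : ℝ) ^ k, by positivity, ?_⟩
    intro s hs hs1
    have h1 : (fc d c0)^[k + N] (γ s) =
        Φ c0 (zt ((d : ℝ) ^ N * ((d : ℝ) ^ k * s)) ((d : ℝ) ^ k * t)) := by
      rw [hγ, iter_map hd hΦ h0 (k + N) s t hs]
      have e1 : (d : ℝ) ^ (k + N) * t = (d : ℝ) ^ k * t + (m : ℝ) := by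
        rw [← hm]; ring
      have e2 : (d : ℝ) ^ (k + N) * s = (d : ℝ) ^ N * ((d : ℝ) ^ k * s) := by ring
      rw [e1, e2, per_int hΦ h0 m _ _ (by positivity)]
    have h2 : (fc d c0)^[k] (γ s) = Φ c0 (zt ((d : ℝ) ^ k * s) ((d : ℝ) ^ k * t)) := by
      rw [hγ, iter_map hd hΦ h0 k s t hs]
    rw [hF]
    simp only
    rw [h1, h2]
    refine hv _ _ (by positivity) ?_
    rw [lt_div_iff₀ hu] at hs1
    linarith
  -- a cluster point
  have hcomp : IsCompact (GLev d c0 1) := isCompact_GLev hd c0 1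
  have hev : ∀ᶠ s in 𝓝[>] (0 : ℝ), γ s ∈ GLev d c0 1 := by
    have h1 : Ioo (0 : ℝ) 1 ∈ 𝓝[>] (0 : ℝ) := Ioo_mem_nhdsGT one_pos
    filter_upwards [h1] with s hs
    have h2 := hΦ.grn c0 (zt s t) (by rw [h0, zt_re]; exact hs.1)
    rw [zt_re] at h2
    change green d c0 (Φ c0 (zt s t)) ≤ 1
    rw [h2]; exact hs.2.le
  obtain ⟨q, _, hq⟩ := hcomp.exists_mapClusterPt_of_frequently
    (l := 𝓝[>] (0 : ℝ)) (f := γ) hev.frequently
  have hfreq : ∀ r : ℝ, 0 < r → ∀ v1 : ℝ, 0 < v1 → ∃ s : ℝ, 0 < s ∧ s < v1 ∧ ‖γ s - q‖ < r := by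
    intro r hr v1 hv1
    have h1 := (mapClusterPt_iff_frequently.1 hq) (ball q r) (ball_mem_nhds q hr)
    have h2 : Ioo (0 : ℝ) v1 ∈ 𝓝[>] (0 : ℝ) := Ioo_mem_nhdsGT hv1
    obtain ⟨s, hs1, hs2⟩ := (h1.and_eventually h2).exists
    rw [mem_ball, dist_eq_norm] at hs1
    exact ⟨s, hs2.1, hs2.2, hs1⟩
  have hFq : F q = 0 := by
    by_contra hne
    have hpos : 0 < ‖F q‖ := norm_pos_iff.2 hne
    obtain ⟨v1, hv1, hv⟩ := hFγ (‖F q‖ / 2) (by positivity)
    have h1 := Metric.continuousAt_iff.1 (hFc.continuousAt (x := q)) (‖F q‖ / 2) (by positivity)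
    obtain ⟨r, hr, hr2⟩ := h1
    obtain ⟨s, hs0, hs1, hs2⟩ := hfreq r hr v1 hv1
    have h2 := hr2 (show dist (γ s) q < r by rw [dist_eq_norm]; exact hs2)
    rw [dist_eq_norm] at h2
    have h3 := hv s hs0 hs1
    have h4 : ‖F q‖ ≤ ‖F (γ s)‖ + ‖F (γ s) - F q‖ := by
      calc ‖F q‖ = ‖F (γ s) - (F (γ s) - F q)‖ := by congr 1; ring
        _ ≤ _ := norm_sub_le _ _
    linarith
  refine ⟨q, ?_, by rw [hF] at hFq; exact sub_eq_zero.1 hFq⟩
  -- convergence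
  rw [Metric.tendsto_nhds]
  intro ε hε
  -- choose a good radius
  have hrad : ∃ r : ℝ, 0 < r ∧ r < ε ∧ ∀ z, ‖z - q‖ = r → F z ≠ 0 := by
    have hfin : ((fun z => ‖z - q‖) '' {z : ℂ | F z = 0}).Finite := hZ.image _
    have hinf : (Ioo (0 : ℝ) ε).Infinite := Ioo_infinite hε
    obtain ⟨r, hr, hr2⟩ := (hinf.diff hfin).nonempty
    refine ⟨r, hr.1, hr.2, ?_⟩
    intro z hz hz0
    exact hr2 ⟨z, hz0, hz⟩
  obtain ⟨r, hr0, hrε, hr⟩ := hrad
  have hsph : IsCompact (sphere q r) := isCompact_sphere q r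
  have hmin : ∃ μ : ℝ, 0 < μ ∧ ∀ z ∈ sphere q r, μ < ‖F z‖ := by
    rcases (sphere q r).eq_empty_or_nonempty with hem | hne
    · refine ⟨1, one_pos, ?_⟩
      rw [hem]
      intro z hz
      exact absurd hz (Set.notMem_empty z)
    · obtain ⟨z0, hz0, hm0⟩ := hsph.exists_isMinOn hne hFc.norm.continuousOn
      have h1 : 0 < ‖F z0‖ := norm_pos_iff.2 (hr z0 (by
        rw [mem_sphere, dist_eq_norm] at hz0; exact hz0))
      refine ⟨‖F z0‖ / 2, by positivity, ?_⟩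
      intro z hz
      have h2 : ‖F z0‖ ≤ ‖F z‖ := hm0 hz
      linarith
  obtain ⟨μ, hμ, hμ2⟩ := hmin
  obtain ⟨v1, hv1, hv⟩ := hFγ μ hμ
  obtain ⟨s', hs'0, hs'1, hs'2⟩ := hfreq r hr0 v1 hv1
  have hnot : ∀ s ∈ Ioo (0 : ℝ) v1, ‖γ s - q‖ ≠ r := by
    intro s hs hsr
    have h1 := hμ2 (γ s) (by rw [mem_sphere, dist_eq_norm]; exact hsr)
    have h2 := hv s hs.1 hs.2
    linarith
  have hcn : ContinuousOn (fun s => ‖γ s - q‖) (Ioo 0 v1) :=
    ((hγc.mono Ioo_subset_Ioi_self).sub continuousOn_const).norm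
  have hall : ∀ s ∈ Ioo (0 : ℝ) v1, ‖γ s - q‖ < r := by
    intro s hs
    by_contra hcon
    push Not at hcon
    have h1 : r ∈ (fun s => ‖γ s - q‖) '' Ioo 0 v1 := by
      have h2 := (isPreconnected_Ioo (a := (0 : ℝ)) (b := v1)).intermediate_value
        (⟨hs'0, hs'1⟩ : s' ∈ Ioo (0 : ℝ) v1) hs hcn
      exact h2 ⟨hs'2.le, hcon⟩
    obtain ⟨x, hx, hxr⟩ := h1
    exact hnot x hx hxr
  filter_upwards [Ioo_mem_nhdsGT hv1] with s hs
  rw [dist_eq_norm]
  exact (hall s hs).trans hrε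

theorem t (_hG : St_Grn) : St_Lnd := lnd

end Pool.Agent.Y576.LC
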